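import Pool.Agent.H694R2.QuadQF

set_option autoImplicit false

/-!
# MP_09e03f_lc: quantifier-free descriptions of projections of compact sets defined by four
quadratic inequalities need exponentially many coefficients

`QF m` (file `Pool/Agent/H694R2/QuadQF.lean`) is the type of quantifier-free formulas in
`Y_1, …, Y_m`: finite Boolean combinations of sign conditions `Q > 0`, `Q = 0`, `Q < 0` with
`Q` a real polynomial; `QF.Holds` is the evident semantics, `QF.polys` the list of the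
polynomials that occur, `QF.size` the total number of their nonzero coefficients.
-/

namespace Pool.Agent.Results.MP_09e03f_lc.ExpSize

open MvPolynomial Pool.Agent.H694R2.Quad

/-- The set defined by `P_1 ≥ 0, …, P_ℓ ≥ 0`. -/
def basicSet {ι : Type} {ℓ : ℕ} (P : Fin ℓ → MvPolynomial ι ℝ) : Set (ι → ℝ) :=
  {p | ∀ i, 0 ≤ eval p (P i)}

/-- The projection to the last `m` coordinates. -/
def proj {k m : ℕ} (S : Set (Fin k ⊕ Fin m → ℝ)) : Set (Fin m → ℝ) :=
  {y | ∃ x : Fin k → ℝ, Sum.elim x y ∈ S}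

/-- `φ` is a semi-algebraic description of the set `T`. -/
def Describes {m : ℕ} (φ : QF m) (T : Set (Fin m → ℝ)) : Prop := ∀ y, φ.Holds y ↔ y ∈ T

theorem card_Xi (r : ℕ) : Fintype.card (Xi (3 * r)) = 9 * r ^ 2 + 3 * r + 1 := by
  simp only [Xi, Fintype.card_option, Fintype.card_prod, Fintype.card_fin]
  ring

/-- renumbering of the variables -/
noncomputable def ren (r : ℕ) :
    Xi (3 * r) ⊕ Fin (3 * r) → Fin (9 * r ^ 2 + 3 * r + 1) ⊕ Fin (3 * r) :=
  Sum.map (Fintype.equivFinOfCardEq (card_Xi r)) id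

/-- the system of `ℓ` inequalities -/
noncomputable def sys (ℓ r : ℕ) (i : Fin ℓ) :
    MvPolynomial (Fin (9 * r ^ 2 + 3 * r + 1) ⊕ Fin (3 * r)) ℝ :=
  rename (ren r) (PP ⟨min i 3, by omega⟩)

theorem deg_sys (ℓ r : ℕ) (i : Fin ℓ) : (sys ℓ r i).totalDegree ≤ 2 :=
  (totalDegree_rename_le _ _).trans (deg_PP _)

theorem mem_sys {ℓ r : ℕ} (hℓ : 4 ≤ ℓ)
    (p : Fin (9 * r ^ 2 + 3 * r + 1) ⊕ Fin (3 * r) → ℝ) :
    p ∈ basicSet (sys ℓ r) ↔ p ∘ ren r ∈ SS (3 * r) := by
  simp only [basicSet, SS, sys, Set.mem_ofPred_eq, eval_rename]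
  constructor
  · intro h i
    have := h ⟨i, by omega⟩
    convert this using 3
    apply Fin.ext
    simp only
    omega
  · intro h i
    exact h _

theorem compact_sys {ℓ r : ℕ} (hℓ : 4 ≤ ℓ) : IsCompact (basicSet (sys ℓ r)) := by
  have hcl : IsClosed (basicSet (sys ℓ r)) := by
    have : basicSet (sys ℓ r) = ⋂ i, {p | 0 ≤ eval p (sys ℓ r i)} := by
      ext p; simp [basicSet]
    rw [this]
    apply isClosed_iInter
    intro i
    exact isClosed_le continuous_const (MvPolynomial.continuous_eval _)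
  apply IsCompact.of_isClosed_subset (isCompact_Icc (a := fun _ => -(r0 (3 * r) + 1))
    (b := fun _ => r0 (3 * r) + 1)) hcl
  intro p hp
  have h1 := (mem_sys hℓ p).1 hp
  have h2 : ∀ a, |p a| ≤ r0 (3 * r) + 1 := by
    intro a
    rcases a with a | i
    · have := SS_bound h1 (Sum.inl ((Fintype.equivFinOfCardEq (card_Xi r)).symm a))
      simpa [ren] using this
    · have := SS_bound h1 (Sum.inr i)
      simpa [ren] using this
  rw [Set.mem_Icc, Pi.le_def, Pi.le_def]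
  exact ⟨fun a => (abs_le.1 (h2 a)).1, fun a => (abs_le.1 (h2 a)).2⟩

theorem proj_sys {ℓ r : ℕ} (hℓ : 4 ≤ ℓ) (y : Fin (3 * r) → ℝ) :
    y ∈ proj (basicSet (sys ℓ r)) ↔ y ∈ projS (3 * r) := by
  constructor
  · rintro ⟨x, hx⟩
    have h1 := (mem_sys hℓ _).1 hx
    refine ⟨x ∘ Fintype.equivFinOfCardEq (card_Xi r), ?_⟩
    convert h1 using 1
    funext a
    rcases a with a | a <;> rfl
  · rintro ⟨x, hx⟩
    refine ⟨x ∘ (Fintype.equivFinOfCardEq (card_Xi r)).symm, (mem_sys hℓ _).2 ?_⟩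
    convert hx using 1
    funext a
    rcases a with a | a
    · simp [ren]
    · rfl

/-- **Main theorem.** For every `ℓ ≥ 4` and `r ≥ 1`, with `k = 9 r ^ 2 + 3 r + 1` and `m = 3 r`,
there are `ℓ` polynomials of degree at most `2` in `k + m` variables that define a compact set
such that every semi-algebraic description of its projection to `ℝ ^ m` contains a polynomial
with at least `2 ^ r` nonzero coefficients. -/
theorem result (ℓ : ℕ) (hℓ : 4 ≤ ℓ) (r : ℕ) (hr : 1 ≤ r) :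
    ∃ P : Fin ℓ → MvPolynomial (Fin (9 * r ^ 2 + 3 * r + 1) ⊕ Fin (3 * r)) ℝ,
      (∀ i, (P i).totalDegree ≤ 2) ∧ IsCompact (basicSet P) ∧
      ∀ φ : QF (3 * r), Describes φ (proj (basicSet P)) →
        ∃ Q ∈ φ.polys, 2 ^ r ≤ Q.support.card :=
  ⟨sys ℓ r, deg_sys ℓ r, compact_sys hℓ, fun φ hφ =>
    exp_lower hr φ fun y => (hφ y).trans (proj_sys hℓ y)⟩

/-! ### A direct consequence (not part of the hand-in): no map, computable or not, from inputs to
descriptions has polynomially bounded output size. -/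

theorem growth (C D : ℕ) : ∃ r : ℕ, 1 ≤ r ∧ C * ((9 * r ^ 2 + 3 * r + 1) + 3 * r) ^ D < 2 ^ r := by
  have h1 := tendsto_pow_const_div_const_pow_of_one_lt (2 * D) (r := (2 : ℝ)) one_lt_two
  have hpos : (0 : ℝ) < 1 / (C * 16 ^ D + 1) := by positivity
  have h2 := (h1.eventually_lt_const hpos).and (Filter.eventually_ge_atTop 1)
  obtain ⟨r, hr, hr1⟩ := h2.exists
  refine ⟨r, hr1, ?_⟩
  have h3 : (9 * r ^ 2 + 3 * r + 1) + 3 * r ≤ 16 * r ^ 2 + 3 * 0 := by nlinarith
  have h4 : C * ((9 * r ^ 2 + 3 * r + 1) + 3 * r) ^ D ≤ C * (16 * r ^ 2) ^ D :=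
    Nat.mul_le_mul_left _ (Nat.pow_le_pow_left (by omega) _)
  refine lt_of_le_of_lt h4 ?_
  rw [div_lt_div_iff₀ (by positivity) (by positivity)] at hr
  have h5 : ((C * (16 * r ^ 2) ^ D : ℕ) : ℝ) < ((2 ^ r : ℕ) : ℝ) := by
    push_cast
    rw [mul_pow, ← pow_mul]
    have h6 : (0 : ℝ) ≤ (r : ℝ) ^ (2 * D) := by positivity
    nlinarith
  exact_mod_cast h5

theorem no_polynomial_output (ℓ : ℕ) (hℓ : 4 ≤ ℓ) :
    ¬ ∃ (alg : (k m : ℕ) → (Fin ℓ → MvPolynomial (Fin k ⊕ Fin m) ℝ) → QF m) (C D : ℕ),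
      ∀ (k m : ℕ), 1 ≤ k → 1 ≤ m → ∀ P : Fin ℓ → MvPolynomial (Fin k ⊕ Fin m) ℝ,
        (∀ i, (P i).totalDegree ≤ 2) → IsCompact (basicSet P) →
          Describes (alg k m P) (proj (basicSet P)) ∧
            (alg k m P).size ≤ C * (k + m) ^ D := by
  rintro ⟨alg, C, D, h⟩
  obtain ⟨r, hr, hgr⟩ := growth C D
  obtain ⟨P, hd, hc, hP⟩ := result ℓ hℓ r hr
  obtain ⟨h1, h2⟩ := h _ _ (by omega) (by omega) P hd hc
  obtain ⟨Q, hQ, hcard⟩ := hP _ h1
  have h3 := QF.card_le_size hQ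
  omega

end Pool.Agent.Results.MP_09e03f_lc.ExpSize
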